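import Pool.Agent.H7.HZ.Stmts

set_option autoImplicit false

open Finset

namespace Pool.HZ7

open Pool.Agent.H23.KT Pool.Agent.H46.KW Pool.KQ Pool.GT7 Pool.GU7

lemma arr_non_empty {V : Type} (G : SimpleGraph V) (u : V) : non G (∅ : Finset V) u = ∅ := by
  simp [non]

lemma arr_e1_nonneg (p : ℕ) : 0 ≤ e1 p := by
  unfold e1
  positivity

/-- The row ARR. -/
theorem arr_thm : ARRStmt := by
  classical
  intro V _ _ G p r a e C C₅ D P κ hC hC₅ he hD hadj hκ hfew htyp
  have hcl : ∀ i, Cl G p r a e C (κ i) (P (κ i)) := fun i => hD _ (hκ i)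
  have hstr : ∀ i, Str G p a e C (nb G univ (κ i)) (P (κ i)) ∅ := fun i => (hcl i).2
  have hcov : ∀ i y, G.Adj (κ i) y ↔ ∃ m, y ∈ P (κ i) m := by
    intro i y
    have h := (hstr i).cov y
    rw [mem_nb] at h
    simpa using h
  have hex : ∀ i j, ∃ m, i ≠ j → κ j ∈ P (κ i) m := by
    intro i j
    by_cases hij : i = j
    · exact ⟨0, fun h => absurd hij h⟩
    · obtain ⟨m, hm⟩ := (hcov i (κ j)).1 (hadj i j hij)
      exact ⟨m, fun _ => hm⟩
  choose σ hσ using hex
  have hinj : ∀ i j k, i ≠ j → i ≠ k → j ≠ k → σ i j ≠ σ i k := by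
    intro i j k hij hik hjk h
    have h1 := hσ i j hij
    have h2 := hσ i k hik
    rw [h] at h1
    exact (hstr i).par.ind _ _ h1 _ h2 (hadj j k hjk)
  have hsurj : ∀ i m, ∃ j, i ≠ j ∧ σ i j = m := by
    intro i m
    have hi : Function.Injective (fun x : Fin (p + 3) => σ i (i.succAbove x)) := by
      intro x y hxy
      by_contra hne
      exact hinj i _ _ (Fin.succAbove_ne i x).symm (Fin.succAbove_ne i y).symm
        (fun h => hne (Fin.succAbove_right_injective h)) hxy
    obtain ⟨x, hx⟩ := (Finite.injective_iff_surjective.1 hi) m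
    exact ⟨i.succAbove x, (Fin.succAbove_ne i x).symm, hx⟩
  have ha : (0 : ℝ) ≤ a := Nat.cast_nonneg a
  have he1 : 0 ≤ e1 p * a := mul_nonneg (arr_e1_nonneg p) ha
  refine ⟨fun i j => if i = j then ∅ else P (κ i) (σ i j), hadj, fun i => (hcl i).1, hfew,
    ?_, ?_, ?_, ?_, ?_, ?_, ?_, ?_, ?_, ?_⟩
  · intro i y
    rw [hcov]
    constructor
    · rintro ⟨m, hm⟩
      obtain ⟨j, hj, rfl⟩ := hsurj i m
      exact ⟨j, by simpa [hj] using hm⟩
    · rintro ⟨j, hj⟩
      by_cases hij : i = j
      · simp [hij] at hj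
      · simp only [hij, if_false] at hj
        exact ⟨_, hj⟩
  · intro i
    simp
  · intro i j hij
    simpa [hij] using hσ i j hij
  · intro i j k hjk
    by_cases hij : i = j
    · simp [hij]
    by_cases hik : i = k
    · simp [hik]
    simp only [hij, hik, if_false]
    exact (hstr i).par.dis _ _ (hinj i j k hij hik hjk)
  · intro i j u hu w hw
    by_cases hij : i = j
    · simp [hij] at hu
    simp only [hij, if_false] at hu hw
    exact (hstr i).par.ind _ u hu w hw
  · intro i j hij
    simp only [hij, if_false]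
    exact (hstr i).lo _
  · intro i j
    by_cases hij : i = j
    · simp only [hij, if_true, card_empty, Nat.cast_zero]
      positivity
    simp only [hij, if_false]
    exact (hstr i).hi _
  · intro i j k hjk u hu
    by_cases hij : i = j
    · simp [hij] at hu
    by_cases hik : i = k
    · simpa [hik, arr_non_empty] using he1
    simp only [hij, hik, if_false] at hu ⊢
    exact (hstr i).mis _ u hu _ (hinj i j k hij hik hjk).symm
  · intro i j k hjk
    have hCa : 0 ≤ C * a := mul_nonneg hC.le ha
    by_cases hij : i = j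
    · simpa [hij] using hCa
    by_cases hik : i = k
    · simpa [hik, arr_non_empty] using hCa
    simp only [hij, hik, if_false]
    refine le_trans ?_ (hstr i).tot
    have h1 : ∑ u ∈ P (κ i) (σ i j), (non G (P (κ i) (σ i k)) u).card ≤ tot G (P (κ i)) := by
      unfold tot
      refine le_trans ?_ (Finset.single_le_sum (f := fun x =>
        ∑ k ∈ univ.erase x, ∑ u ∈ P (κ i) x, (non G (P (κ i) k) u).card)
        (fun _ _ => Nat.zero_le _) (mem_univ (σ i j)))
      exact Finset.single_le_sum (f := fun k => ∑ u ∈ P (κ i) (σ i j), (non G (P (κ i) k) u).card)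
        (fun _ _ => Nat.zero_le _)
        (mem_erase.2 ⟨(hinj i j k hij hik hjk).symm, mem_univ _⟩)
    exact_mod_cast h1
  · intro i l k hil hlk
    by_cases hik : i = k
    · simpa [hik, arr_non_empty] using hC₅.le
    simp only [hik, if_false]
    exact htyp i l hil (σ i l) (hσ i l hil) (σ i k) (hinj i k l hik hil (Ne.symm hlk))

end Pool.HZ7
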